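import Pool.Agent.W642.RS.Total

set_option autoImplicit false

/-! Random stacks: the second moment of the bracket (generalisation of `RS.Main`, `RS.Total`). -/

namespace Pool.Agent.W642.RV

open Finset Function Pool.Agent.H832R2.JR LaurentPolynomial Pool.Agent.W642.RS

variable {N n : ℕ}

open Classical in
/-- for a fixed placement, exchanging neighbouring heights gives the bracket `F` rarely -/
theorem good_bound (D : Stack N n) (F : ℤ) (h : Equiv.Perm (Fin n)) :
    ((altPairs (XX D)).filter fun ef => Paired h ef.1 ∧ Paired h ef.2).card *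
      (univ.filter fun ε : Fin (n / 2) → Bool => rho (D.f (tau ε * h)) 0 2 = F).card ^ 4 ≤
      2048 * (n + 1) * (2 ^ (n / 2)) ^ 4 := by
  set J := (altPairs (XX D)).filter fun ef => Paired h ef.1 ∧ Paired h ef.2 with hJ
  rcases Nat.eq_zero_or_pos J.card with h0 | h0
  · rw [h0]; simp
  have hN : 0 < N := by
    obtain ⟨x, hx⟩ := card_pos.1 h0
    rw [hJ, mem_filter] at hx
    unfold altPairs at hx
    rw [mem_filter, mem_product] at hx
    have := hx.1.1.1
    unfold XX at this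
    rw [mem_image] at this
    obtain ⟨c, _⟩ := this
    exact lt_of_le_of_lt (Nat.zero_le _) c.2
  obtain ⟨K, hK⟩ := second_moment D.G ⟨0, hN⟩
  -- the matching
  set E : Finset (Fin (n / 2 + 1) × Fin (n / 2 + 1)) :=
    univ.filter fun kl => kl.1 ≠ kl.2 ∧ AA D h kl.1 kl.2 ≠ 0 with hE
  have hJE : J.card ≤ E.card := by
    let g : (Fin n × Fin n) × (Fin n × Fin n) → Fin (n / 2 + 1) × Fin (n / 2 + 1) := fun ef =>
      (Fin.ofNat (n / 2 + 1) ((h ef.1.1 : ℕ) / 2 + 1), Fin.ofNat (n / 2 + 1) ((h ef.2.1 : ℕ) / 2 + 1))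
    have hslot : ∀ c, Paired h (ed D c) →
        slot D h c = Fin.ofNat (n / 2 + 1) ((h (ed D c).1 : ℕ) / 2 + 1) := by
      intro c hc
      have hc' := (paired_ed D h c).1 hc
      have h1 : (h (D.arc (c, false)) : ℕ) ≠ h (D.arc (c, true)) :=
        fun h2 => D.ne c (h.injective (Fin.ext h2))
      have h3 := (h (D.arc (c, false))).2
      have h4 := (h (D.arc (c, true))).2
      have h5 : (h (ed D c).1 : ℕ) / 2 = (h (D.arc (c, false)) : ℕ) / 2 := by
        obtain ⟨b, hb1, hb2⟩ := ed_cases D c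
        rw [← hb1]
        cases b
        · rfl
        · exact hc'.symm
      apply Fin.ext
      unfold slot
      rw [dif_pos hc', Fin.val_ofNat, h5, Nat.mod_eq_of_lt (by omega)]
    refine card_le_card_of_injOn g ?_ ?_
    · intro x hx
      rw [mem_coe, hJ, mem_filter] at hx
      unfold altPairs at hx
      rw [mem_filter, mem_product] at hx
      obtain ⟨⟨⟨hx1, hx2⟩, halt⟩, hp1, hp2⟩ := hx
      unfold XX at hx1 hx2
      rw [mem_image] at hx1 hx2
      obtain ⟨c, _, hc⟩ := hx1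
      obtain ⟨d, _, hd⟩ := hx2
      rw [mem_coe, hE, mem_filter]
      have e1 : g x = (slot D h c, slot D h d) := by
        simp only [g]
        rw [hslot c (hc ▸ hp1), hslot d (hd ▸ hp2), hc, hd]
      rw [e1]
      refine ⟨mem_univ _, ?_, ?_⟩
      · intro hs
        have := slot_inj D h d c ((paired_ed D h d).1 (hd ▸ hp2)) hs
        rw [this] at hc
        rw [← hc, ← hd] at halt
        exact absurd halt.1 (lt_irrefl _)
      · exact AA_entry D h c d ((paired_ed D h c).1 (hc ▸ hp1)) ((paired_ed D h d).1 (hd ▸ hp2))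
          (crosses_of_alt D c d (by rw [hc, hd]; exact halt))
    · intro x hx y hy hxy
      rw [mem_coe, hJ, mem_filter] at hx hy
      unfold altPairs at hx hy
      rw [mem_filter, mem_product] at hx hy
      obtain ⟨⟨⟨hx1, hx2⟩, _⟩, hp1, hp2⟩ := hx
      obtain ⟨⟨⟨hy1, hy2⟩, _⟩, hq1, hq2⟩ := hy
      unfold XX at hx1 hx2 hy1 hy2
      rw [mem_image] at hx1 hx2 hy1 hy2
      obtain ⟨c, _, hc⟩ := hx1
      obtain ⟨d, _, hd⟩ := hx2
      obtain ⟨c', _, hc'⟩ := hy1
      obtain ⟨d', _, hd'⟩ := hy2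
      simp only [g, Prod.mk.injEq] at hxy
      rw [← hc, ← hc', ← hd, ← hd'] at hxy
      rw [← hc] at hp1
      rw [← hd] at hp2
      rw [← hc'] at hq1
      rw [← hd'] at hq2
      rw [← hslot c hp1, ← hslot d hp2, ← hslot c' hq1, ← hslot d' hq2] at hxy
      have e1 := slot_inj D h c' c ((paired_ed D h c').1 hq1) hxy.1
      have e2 := slot_inj D h d' d ((paired_ed D h d').1 hq2) hxy.2
      apply Prod.ext
      · rw [← hc, ← hc', e1]
      · rw [← hd, ← hd', e2]
  obtain ⟨m, u, v, huv, hmem, hcard⟩ := Pool.Agent.W688.RS.mtch (n / 2 + 1) E (fun e he => by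
    rw [hE, mem_filter] at he; exact he.2.1)
  have hAne : ∀ k, AA D h (u k) (v k) ≠ 0 := by
    intro k
    have := hmem k
    rw [hE, mem_filter] at this
    exact this.2.2
  -- the quadratic form
  set t : ℤ := (K - F) / 12 with ht
  have h1 := qlo (n / 2 + 1) m (AA D h) (AA_symm D h) u v huv hAne t
  have h2 : (univ.filter fun ε : Fin (n / 2) → Bool => rho (D.f (tau ε * h)) 0 2 = F).card ≤
      (univ.filter fun σ : Fin (n / 2 + 1) → Bool => Q (AA D h) σ = t).card := by
    refine card_le_card_of_injOn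
      (fun ε => (Fin.cons true (fun k => !ε k) : Fin (n / 2 + 1) → Bool)) ?_ ?_
    · intro ε hε
      rw [mem_coe, mem_filter] at hε ⊢
      refine ⟨mem_univ _, ?_⟩
      have e1 := hK (wsig D h (Fin.cons true (fun k => !ε k)))
      rw [Q_AA, wsig_cons] at e1
      have e2 : rho (fPoly D.G (D.signs (tau ε * h))) 0 2 = F := hε.2
      rw [e2] at e1
      show Q (AA D h) (Fin.cons true fun k => !ε k) = t
      omega
    · intro ε _ ε' _ hεε
      funext k
      have h5 : (Fin.cons true (fun k => !ε k) : Fin (n / 2 + 1) → Bool) k.succ =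
        (Fin.cons true (fun k => !ε' k) : Fin (n / 2 + 1) → Bool) k.succ := congrFun hεε k.succ
      rw [Fin.cons_succ, Fin.cons_succ] at h5
      simpa using h5
  set a := (univ.filter fun ε : Fin (n / 2) → Bool => rho (D.f (tau ε * h)) 0 2 = F).card with ha
  have h3 : m * a ^ 4 ≤ 512 * (2 ^ (n / 2)) ^ 4 := by
    calc m * a ^ 4 ≤ m * (univ.filter fun σ : Fin (n / 2 + 1) → Bool =>
          Q (AA D h) σ = t).card ^ 4 := by gcongr
      _ ≤ 32 * (2 ^ (n / 2 + 1)) ^ 4 := h1
      _ = 512 * (2 ^ (n / 2)) ^ 4 := by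
          rw [show (2 : ℕ) ^ (n / 2 + 1) = 2 ^ (n / 2) * 2 from pow_succ _ _, mul_pow]; ring
  calc J.card * a ^ 4 ≤ (4 * m * (n / 2 + 1)) * a ^ 4 := by
        gcongr
        exact hJE.trans hcard
    _ = 4 * (n / 2 + 1) * (m * a ^ 4) := by ring
    _ ≤ 4 * (n + 1) * (512 * (2 ^ (n / 2)) ^ 4) := by
        gcongr
        exact Nat.div_le_self n 2
    _ = _ := by ring

open Classical in
/-- the number of placements with second moment `F` -/
noncomputable def TT (D : Stack N n) (F : ℤ) : ℕ :=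
  (univ.filter fun h : Equiv.Perm (Fin n) => rho (D.f h) 0 2 = F).card

theorem TT_le (D : Stack N n) (F : ℤ) : TT D F ≤ n.factorial := by
  classical
  unfold TT
  refine (card_le_univ _).trans ?_
  rw [Fintype.card_perm, Fintype.card_fin]

open Classical in
theorem total (D : Stack N n) (F : ℤ) : 2 ^ (n / 2) * TT D F =
    ∑ h : Equiv.Perm (Fin n),
      (univ.filter fun ε : Fin (n / 2) → Bool => rho (D.f (tau ε * h)) 0 2 = F).card := by
  have h1 : ∀ h : Equiv.Perm (Fin n),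
      (univ.filter fun ε : Fin (n / 2) → Bool => rho (D.f (tau ε * h)) 0 2 = F).card =
      ∑ ε : Fin (n / 2) → Bool, if rho (D.f (tau ε * h)) 0 2 = F then 1 else 0 := by
    intro h; rw [card_filter]
  rw [sum_congr rfl (fun h _ => h1 h), sum_comm]
  have h2 : ∀ ε : Fin (n / 2) → Bool, ∑ h : Equiv.Perm (Fin n),
      (if rho (D.f (tau ε * h)) 0 2 = F then 1 else 0) = TT D F := by
    intro ε
    unfold TT
    rw [card_filter]
    exact Fintype.sum_equiv (Equiv.mulLeft (tau ε)) _ _ (fun h => rfl)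
  rw [sum_congr rfl (fun ε _ => h2 ε)]
  simp

theorem stack_aux : ∃ C : ℝ, 0 < C ∧ ∀ (N n : ℕ) (D : Stack N n) (F : ℤ),
    ((altPairs (XX D)).card : ℝ) * (TT D F : ℝ) ^ 4 ≤ C * (n : ℝ) ^ 3 * (n.factorial : ℝ) ^ 4 := by
  classical
  obtain ⟨C0, hC0⟩ := var Pool.Agent.W803.RS.count
  refine ⟨(C0 + 12) ^ 4 + 1, by positivity, fun N n D F => ?_⟩
  set I : ℝ := ((altPairs (XX D)).card : ℝ) with hI
  set f : ℝ := (n.factorial : ℝ) with hf
  set t : ℝ := (TT D F : ℝ) with ht
  have hf0 : 0 < f := by rw [hf]; exact_mod_cast Nat.factorial_pos n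
  have htf : t ≤ f := by rw [ht, hf]; exact_mod_cast TT_le D F
  have ht0 : 0 ≤ t := by positivity
  rcases le_or_gt I ((n : ℝ) ^ 3) with hcase | hcase
  · calc I * t ^ 4 ≤ (n : ℝ) ^ 3 * f ^ 4 := by gcongr
      _ = 1 * (n : ℝ) ^ 3 * f ^ 4 := by ring
      _ ≤ _ := by
        gcongr
        have : (0 : ℝ) ≤ (C0 + 12) ^ 4 := by positivity
        linarith
  · have hI0 : 0 < I := lt_of_le_of_lt (by positivity) hcase
    have hn : 0 < n := by
      rcases Nat.eq_zero_or_pos n with rfl | h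
      · exfalso
        have : (altPairs (XX D)).card = 0 := by
          rw [card_eq_zero, eq_empty_iff_forall_notMem]
          intro x _
          exact Fin.elim0 x.1.1
        rw [hI, this] at hI0
        simp at hI0
      · exact h
    have hn1 : (1 : ℝ) ≤ n := by exact_mod_cast hn
    set β : ℝ := √(√((n : ℝ) ^ 3 / I)) with hβ
    have hq0 : 0 < (n : ℝ) ^ 3 / I := by positivity
    have hβ0 : 0 < β := Real.sqrt_pos.2 (Real.sqrt_pos.2 hq0)
    have hβ4 : β ^ 4 = (n : ℝ) ^ 3 / I := by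
      rw [hβ, show (4 : ℕ) = 2 * 2 by norm_num, pow_mul, Real.sq_sqrt (Real.sqrt_nonneg _),
        Real.sq_sqrt hq0.le]
    have hβ1 : β ≤ 1 := by
      by_contra h
      rw [not_le] at h
      have h1 : (1 : ℝ) < β ^ 4 := one_lt_pow₀ h (by norm_num)
      rw [hβ4, lt_div_iff₀ hI0] at h1
      linarith
    set s2 : ℝ := 2 ^ (n / 2) with hs2
    have hs20 : 0 < s2 := by positivity
    set a : Equiv.Perm (Fin n) → ℕ := fun h =>
      (univ.filter fun ε : Fin (n / 2) → Bool => rho (D.f (tau ε * h)) 0 2 = F).card with ha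
    have hale : ∀ h, (a h : ℝ) ≤ s2 := by
      intro h
      have : a h ≤ 2 ^ (n / 2) := by
        refine (card_le_univ _).trans ?_
        rw [Fintype.card_fun, Fintype.card_bool, Fintype.card_fin]
      rw [hs2]
      exact_mod_cast this
    set B : Finset (Equiv.Perm (Fin n)) := univ.filter fun h : Equiv.Perm (Fin n) =>
      4 * n ^ 2 * ((altPairs (XX D)).filter fun ef => Paired h ef.1 ∧ Paired h ef.2).card <
      (altPairs (XX D)).card with hB
    have hBcard : (B.card : ℝ) ≤ C0 * β * f := by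
      have h1 := hC0 n (XX D) (XX_lt D)
      have h2 : (B.card : ℝ) * I ≤ C0 * (n : ℝ) ^ 3 * f := by
        rw [hI, hf, hB]
        exact_mod_cast h1
      have h3 : (B.card : ℝ) ≤ C0 * β ^ 4 * f := by
        rw [hβ4]
        rw [← le_div_iff₀ hI0] at h2
        refine h2.trans (le_of_eq ?_)
        field_simp
      refine h3.trans ?_
      have : β ^ 4 ≤ β := by
        calc β ^ 4 = β ^ 3 * β := by ring
          _ ≤ 1 * β := by
            gcongr
            exact pow_le_one₀ hβ0.le hβ1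
          _ = β := one_mul _
      gcongr
    have hgood : ∀ h ∉ B, (a h : ℝ) ≤ 12 * β * s2 := by
      intro h hh
      rw [hB, mem_filter, not_and, not_lt] at hh
      have h1 := hh (mem_univ _)
      have h2 := good_bound D F h
      have h3 : I * (a h : ℝ) ^ 4 ≤ 16384 * (n : ℝ) ^ 3 * s2 ^ 4 := by
        have h4 : (altPairs (XX D)).card * a h ^ 4 ≤
            4 * n ^ 2 * (2048 * (n + 1) * (2 ^ (n / 2)) ^ 4) := by
          calc _ ≤ 4 * n ^ 2 * ((altPairs (XX D)).filter fun ef =>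
                Paired h ef.1 ∧ Paired h ef.2).card * a h ^ 4 := by gcongr
            _ = 4 * n ^ 2 * (((altPairs (XX D)).filter fun ef =>
                Paired h ef.1 ∧ Paired h ef.2).card * a h ^ 4) := by ring
            _ ≤ _ := by gcongr
        have h5 : I * (a h : ℝ) ^ 4 ≤ 4 * (n : ℝ) ^ 2 * (2048 * (n + 1) * s2 ^ 4) := by
          rw [hI, hs2]
          exact_mod_cast h4
        refine h5.trans ?_
        have h6 : ((n : ℝ) + 1) ≤ 2 * n := by linarith
        calc 4 * (n : ℝ) ^ 2 * (2048 * (n + 1) * s2 ^ 4) ≤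
              4 * (n : ℝ) ^ 2 * (2048 * (2 * n) * s2 ^ 4) := by gcongr
          _ = _ := by ring
      have h7 : (a h : ℝ) ^ 4 ≤ (12 * β * s2) ^ 4 := by
        rw [mul_pow, mul_pow, hβ4]
        have h8 : (a h : ℝ) ^ 4 ≤ 16384 * (n : ℝ) ^ 3 * s2 ^ 4 / I := by
          rw [le_div_iff₀ hI0]; linarith
        refine h8.trans ?_
        rw [show (12 : ℝ) ^ 4 * ((n : ℝ) ^ 3 / I) * s2 ^ 4 = 20736 * (n : ℝ) ^ 3 * s2 ^ 4 / I by
          ring]
        gcongr
        norm_num
      exact (pow_le_pow_iff_left₀ (by positivity) (by positivity) (by norm_num)).1 h7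
    have htot : s2 * t ≤ (C0 + 12) * β * f * s2 := by
      have h1 : s2 * t = ∑ h, (a h : ℝ) := by
        rw [hs2, ht]
        exact_mod_cast total D F
      rw [h1, ← sum_filter_add_sum_filter_not univ (fun h => h ∈ B)]
      have h2 : ∑ h ∈ univ.filter (fun h => h ∈ B), (a h : ℝ) ≤ (C0 * β * f) * s2 := by
        calc _ ≤ ∑ _h ∈ univ.filter (fun h => h ∈ B), s2 := sum_le_sum fun h _ => hale h
          _ = (B.card : ℝ) * s2 := by
            rw [sum_const, nsmul_eq_mul]
            congr 3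
            ext h; simp
          _ ≤ _ := by gcongr
      have h3 : ∑ h ∈ univ.filter (fun h => ¬ h ∈ B), (a h : ℝ) ≤ f * (12 * β * s2) := by
        calc _ ≤ ∑ _h ∈ univ.filter (fun h => ¬ h ∈ B), (12 * β * s2) :=
              sum_le_sum fun h hh => hgood h (mem_filter.1 hh).2
          _ = ((univ.filter (fun h => ¬ h ∈ B)).card : ℝ) * (12 * β * s2) := by
            rw [sum_const, nsmul_eq_mul]
          _ ≤ f * (12 * β * s2) := by
            gcongr
            rw [hf]
            have : (univ.filter (fun h => ¬ h ∈ B)).card ≤ n.factorial := by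
              refine (card_le_univ _).trans ?_
              rw [Fintype.card_perm, Fintype.card_fin]
            exact_mod_cast this
      calc _ ≤ (C0 * β * f) * s2 + f * (12 * β * s2) := add_le_add h2 h3
        _ = _ := by ring
    have htle : t ≤ (C0 + 12) * β * f := by
      have : s2 * t ≤ s2 * ((C0 + 12) * β * f) := by linarith
      exact le_of_mul_le_mul_left this hs20
    calc I * t ^ 4 ≤ I * ((C0 + 12) * β * f) ^ 4 := by gcongr
      _ = (C0 + 12) ^ 4 * (I * β ^ 4) * f ^ 4 := by ring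
      _ = (C0 + 12) ^ 4 * (n : ℝ) ^ 3 * f ^ 4 := by
        rw [hβ4]; field_simp
      _ ≤ _ := by
        gcongr
        linarith

/-- **Stacks**: `N³ · #{h | f = F}⁴ ≤ C n⁵ (n!)⁴`. -/
theorem stack_main : ∃ C : ℝ, 0 < C ∧ ∀ (N n : ℕ) (D : Stack N n) (F : ℤ),
    (N : ℝ) ^ 3 * (TT D F : ℝ) ^ 4 ≤ C * (n : ℝ) ^ 5 * (n.factorial : ℝ) ^ 4 := by
  obtain ⟨C, hC, h⟩ := stack_aux
  refine ⟨108 * C + 27, by positivity, fun N n D F => ?_⟩
  have h1 := h N n D F
  have h2 := Pool.Agent.W64.RS.cross n (XX D) (XX_lt D)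
  rw [XX_card] at h2
  have h3 : (N : ℝ) ^ 3 ≤ 108 * (n : ℝ) ^ 2 * ((altPairs (XX D)).card : ℝ) + 27 * (n : ℝ) ^ 3 := by
    exact_mod_cast h2
  have h4 : (TT D F : ℝ) ≤ (n.factorial : ℝ) := by exact_mod_cast TT_le D F
  have h5 : (n : ℝ) ^ 3 ≤ (n : ℝ) ^ 5 := by
    rcases Nat.eq_zero_or_pos n with rfl | hn
    · norm_num
    · have : (1 : ℝ) ≤ n := by exact_mod_cast hn
      exact pow_le_pow_right₀ this (by norm_num)
  calc (N : ℝ) ^ 3 * (TT D F : ℝ) ^ 4 ≤
        (108 * (n : ℝ) ^ 2 * ((altPairs (XX D)).card : ℝ) + 27 * (n : ℝ) ^ 3) *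
          (TT D F : ℝ) ^ 4 := by gcongr
    _ = 108 * (n : ℝ) ^ 2 * (((altPairs (XX D)).card : ℝ) * (TT D F : ℝ) ^ 4) +
          27 * (n : ℝ) ^ 3 * (TT D F : ℝ) ^ 4 := by ring
    _ ≤ 108 * (n : ℝ) ^ 2 * (C * (n : ℝ) ^ 3 * (n.factorial : ℝ) ^ 4) +
          27 * (n : ℝ) ^ 5 * (n.factorial : ℝ) ^ 4 := by gcongr
    _ = _ := by ring

open Classical in
/-- **Random polygons** with vertices on a circle. -/
theorem poly_main : ∃ C : ℝ, 0 < C ∧ ∀ n : ℕ, ∃ R : Finset (Equiv.Perm (Fin n)),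
    (n : ℝ) * (R.card : ℝ) ≤ C * (n.factorial : ℝ) ∧
    ∀ r ∉ R, ∀ (N : ℕ) (D : Stack N n), IsPolygon r D → ∀ F : ℤ,
      (n : ℝ) * (TT D F : ℝ) ^ 4 ≤ C * (n.factorial : ℝ) ^ 4 := by
  obtain ⟨C, hC, h⟩ := stack_main
  obtain ⟨C1, h1⟩ := poly
  refine ⟨13824 * C + C1, by positivity, fun n => ?_⟩
  refine ⟨univ.filter fun r : Equiv.Perm (Fin n) =>
    24 * (univ.filter fun ij : Fin n × Fin n => ij.1 < ij.2 ∧ EdgesCross r ij.1 ij.2).card <
      n ^ 2, ?_, ?_⟩
  · have h2 := h1 n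
    have h3 : ((univ.filter fun r : Equiv.Perm (Fin n) =>
      24 * (univ.filter fun ij : Fin n × Fin n => ij.1 < ij.2 ∧ EdgesCross r ij.1 ij.2).card <
      n ^ 2).card : ℝ) * n ≤ C1 * (n.factorial : ℝ) := by exact_mod_cast h2
    have h4 : (0 : ℝ) ≤ 13824 * C * (n.factorial : ℝ) := by positivity
    linarith
  · intro r hr N D hD F
    rw [mem_filter, not_and, not_lt] at hr
    have h2 := hr (mem_univ _)
    rw [← XX_polygon r D hD, XX_card] at h2
    have h3 : (n : ℝ) ^ 2 ≤ 24 * (N : ℝ) := by exact_mod_cast h2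
    have h4 := h N n D F
    rcases Nat.eq_zero_or_pos n with rfl | hn
    · rw [Nat.cast_zero, zero_mul]; positivity
    · have hn0 : (0 : ℝ) < n := by exact_mod_cast hn
      have h5 : (n : ℝ) ^ 6 ≤ 13824 * (N : ℝ) ^ 3 := by
        calc (n : ℝ) ^ 6 = ((n : ℝ) ^ 2) ^ 3 := by ring
          _ ≤ (24 * (N : ℝ)) ^ 3 := by gcongr
          _ = _ := by ring
      have h6 : (n : ℝ) ^ 5 * ((n : ℝ) * (TT D F : ℝ) ^ 4) ≤
          (n : ℝ) ^ 5 * (13824 * C * (n.factorial : ℝ) ^ 4) := by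
        calc (n : ℝ) ^ 5 * ((n : ℝ) * (TT D F : ℝ) ^ 4) = (n : ℝ) ^ 6 * (TT D F : ℝ) ^ 4 := by ring
          _ ≤ 13824 * (N : ℝ) ^ 3 * (TT D F : ℝ) ^ 4 := by gcongr
          _ = 13824 * ((N : ℝ) ^ 3 * (TT D F : ℝ) ^ 4) := by ring
          _ ≤ 13824 * (C * (n : ℝ) ^ 5 * (n.factorial : ℝ) ^ 4) := by gcongr
          _ = _ := by ring
      have h7 := le_of_mul_le_mul_left h6 (by positivity)
      refine h7.trans ?_
      gcongr
      have : (0 : ℝ) ≤ C1 := by positivity
      linarith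

end Pool.Agent.W642.RV
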