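import Pool.Agent.W642.RS.Defs
import Pool.Agent.H832R3.VJ.Defs

set_option autoImplicit false

/-!
# The diagrams of Gauss words with chosen crossings

The knot diagram with Gauss word `G` whose crossing `c` has the sign `w c`, as a diagram with marked
points (`Pool.Agent.H891R2.Jones.Diagram`).  The marked points are the `4 N` half edges at the
crossings.  `e c` tells how the two passages of the crossing `c` cross each other: the passage
`(c, !e c)` crosses the passage `(c, e c)` from the right to the left.
-/

namespace Pool.Agent.W642.RV

open Pool.Agent.H832R2.JR Pool.Agent.H891R2.Jones Pool.Agent.H832R3.VJ Pool.Agent.W642.RS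

/-- The crossing `c`; the passage `(c, !e c)` crosses the passage `(c, e c)` from the right to the
left.  `w c = true`: the passage `(c, e c)` is the upper one and the crossing is positive;
`w c = false`: the passage `(c, !e c)` is the upper one and the crossing is negative. -/
def crossing {N : ℕ} (e w : Fin N → Bool) (c : Fin N) : Crossing (Half N) :=
  if w c then
    ⟨((c, !e c), false), ((c, e c), true), ((c, !e c), true), ((c, e c), false), true, false⟩
  else ⟨((c, e c), false), ((c, !e c), false), ((c, e c), true), ((c, !e c), true), true, true⟩

/-- the knot diagram with Gauss word `G`, local pictures `e` and crossing signs `w` -/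
def diagram {N : ℕ} (G : GaussWord N) (e w : Fin N → Bool) : Diagram (Half N) where
  arcs := (List.finRange (2 * N)).map fun k => ((G.symm k, true), (next G (G.symm k), false))
  crossings := (List.finRange N).map (crossing e w)

/-- the diagram with the finite set of its marked points -/
def dia {N : ℕ} (G : GaussWord N) (e w : Fin N → Bool) : Dia := ⟨Half N, inferInstance, diagram G e w⟩

/-- the diagram of the stack `D` with the arc `i` at height `h i` -/
def stackDia {N n : ℕ} (D : Stack N n) (h : Equiv.Perm (Fin n)) : Dia :=
  dia D.G (fun c => !D.sign c) (D.signs h)

end Pool.Agent.W642.RV
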