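import Pool.Agent.W642.RV.Defs

set_option autoImplicit false

/-! Statements of the independent parts (subtasks RV-*). -/

namespace Pool.Agent.W642.RV

open Pool.Agent.H832R2.JR Pool.Agent.H891R2.Jones Pool.Agent.H832R3.VJ Pool.Agent.W642.RS

/-- RV-CLOSED -/
def S_closed : Prop := ∀ (N : ℕ) (G : GaussWord N) (e w : Fin N → Bool),
  (diagram G e w).IsClosed

/-- RV-FPOLY -/
def S_fpoly : Prop := ∀ (N : ℕ) (G : GaussWord N) (e w : Fin N → Bool),
  (diagram G e w).fPoly = fPoly G w

end Pool.Agent.W642.RV
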