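import Pool.Agent.W642.RV.Count
import Pool.Agent.W642.RV.Stms
import Pool.Agent.W705.JR.Tup
import Pool.Agent.H953R3.Q2.Fin2

set_option autoImplicit false

/-! Vassiliev invariants of order two of random stacks. -/

namespace Pool.Agent.W642.RV

open Finset Function Pool.Agent.H832R2.JR LaurentPolynomial Pool.Agent.W642.RS
  Pool.Agent.H891R2.Jones Pool.Agent.H832R3.VJ

theorem rho_moment (F : ℤ[T;T⁻¹]) : rho F 0 2 = moment 2 F := by
  refine LaurentPolynomial.induction_on' F ?_ ?_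
  · intro p q hp hq
    rw [map_add, Matrix.add_apply, hp, hq, moment_add]
  · intro n a
    rw [Pool.Agent.H832R3.VJ.V7.moment_term]
    have h : (C a * T n : ℤ[T;T⁻¹]) = a • T n := by
      rw [LaurentPolynomial.smul_eq_C_mul]
    rw [h, map_smul, rho_T]
    simp [mmat]

variable {N n : ℕ}

/-- knots not separated from `Y` have a given second moment -/
theorem rho_of_not_separated (hf : S_fpoly) (G : GaussWord N) (e w : Fin N → Bool) (Y : Dia)
    (h : ¬ Separated 2 (dia G e w) Y) : rho (fPoly G w) 0 2 = moment 2 Y.D.fPoly := by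
  have h1 := Pool.Agent.H953R3.Q2.same_of_not_separated h 2 le_rfl
  have h2 : (dia G e w).D.fPoly = fPoly G w := hf N G e w
  rw [h2] at h1
  rw [rho_moment, h1]

theorem isLink (hc : S_closed) (hN : 0 < N) (G : GaussWord N) (e w : Fin N → Bool) :
    (dia G e w).IsLink := by
  classical
  refine ⟨⟨((⟨0, hN⟩, false), false)⟩, ?_⟩
  intro p
  have h1 := hc N G e w p
  have h2 : ∀ (i1 i2 : DecidableEq (Half N)) (l : List (Half N)),
      @List.count _ (@instBEqOfDecidableEq _ i1) p l = @List.count _ (@instBEqOfDecidableEq _ i2) p l := by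
    intro i1 i2 l
    rw [Subsingleton.elim i1 i2]
  exact ⟨(h2 _ _ _).trans h1.1, (h2 _ _ _).trans h1.2⟩

open Classical in
/-- fixed shadows -/
theorem fixed_sep (hf : S_fpoly) (N : ℕ) (G : GaussWord N) (e : Fin N → Bool) (Y : Dia) :
      (∀ (m : ℕ) (u v : Fin m → Fin N), IsMatching G u v →
        m * (univ.filter fun w : Fin N → Bool => ¬ Separated 2 (dia G e w) Y).card ^ 4 ≤
          32 * (2 ^ N) ^ 4) ∧
      classes G * (univ.filter fun w : Fin N → Bool => ¬ Separated 2 (dia G e w) Y).card ^ 4 ≤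
        320 * (2 ^ N) ^ 4 := by
  have h1 : ∀ (m : ℕ) (u v : Fin m → Fin N), IsMatching G u v →
        m * (univ.filter fun w : Fin N → Bool => ¬ Separated 2 (dia G e w) Y).card ^ 4 ≤
          32 * (2 ^ N) ^ 4 := by
    rintro m u v ⟨hu, hv, huv, hc⟩
    rcases Nat.eq_zero_or_pos m with rfl | hm
    · simp
    obtain ⟨K, hK⟩ := second_moment G (u ⟨0, hm⟩)
    have hne : ∀ k, adjm G (u k) (v k) ≠ 0 := by
      intro k
      unfold adjm
      rw [if_pos (hc k)]
      exact one_ne_zero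
    have hinj : Injective (Sum.elim u v) := by
      rintro (a | a) (b | b) hab
      · exact congrArg Sum.inl (hu (by simpa using hab))
      · exact absurd (by simpa using hab) (huv a b)
      · exact absurd (by simpa using hab.symm) (huv b a)
      · exact congrArg Sum.inr (hv (by simpa using hab))
    have h2 := qlo N m (adjm G) (adjm_symm G) u v hinj hne ((K - moment 2 Y.D.fPoly) / 12)
    refine le_trans ?_ h2
    gcongr with w
    intro hw
    have e1 := hK w
    rw [rho_of_not_separated hf G e w Y hw] at e1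
    omega
  refine ⟨h1, ?_⟩
  obtain ⟨m, u, v, huv, hmax⟩ := exists_maximal G
  have h2 := h1 m u v huv
  have h3 := classes_le G u v hmax
  calc classes G * (univ.filter fun w : Fin N → Bool => ¬ Separated 2 (dia G e w) Y).card ^ 4 ≤
        (10 * m) * (univ.filter fun w : Fin N → Bool =>
          ¬ Separated 2 (dia G e w) Y).card ^ 4 := by gcongr
    _ = 10 * (m * (univ.filter fun w : Fin N → Bool =>
          ¬ Separated 2 (dia G e w) Y).card ^ 4) := by ring
    _ ≤ 10 * (32 * (2 ^ N) ^ 4) := by gcongr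
    _ = _ := by ring

open Classical in
theorem sep_le (hf : S_fpoly) (D : Stack N n) (Y : Dia) :
    (univ.filter fun h : Equiv.Perm (Fin n) => ¬ Separated 2 (stackDia D h) Y).card ≤
      TT D (moment 2 Y.D.fPoly) := by
  unfold TT
  gcongr with h
  intro hh
  exact rho_of_not_separated hf D.G _ _ Y hh

open Classical in
theorem stack_sep (hf : S_fpoly) : ∃ C : ℝ, 0 < C ∧ ∀ (N n : ℕ) (D : Stack N n) (Y : Dia),
      (N : ℝ) ^ 3 * ((univ.filter fun h : Equiv.Perm (Fin n) =>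
        ¬ Separated 2 (stackDia D h) Y).card : ℝ) ^ 4 ≤
          C * (n : ℝ) ^ 5 * (n.factorial : ℝ) ^ 4 := by
  obtain ⟨C, hC, h⟩ := stack_main
  refine ⟨C, hC, fun N n D Y => le_trans ?_ (h N n D (moment 2 Y.D.fPoly))⟩
  have h1 := sep_le hf D Y
  gcongr

open Classical in
theorem poly_sep (hf : S_fpoly) : ∃ C : ℝ, 0 < C ∧ ∀ n : ℕ, ∃ R : Finset (Equiv.Perm (Fin n)),
    (n : ℝ) * (R.card : ℝ) ≤ C * (n.factorial : ℝ) ∧
    ∀ r ∉ R, ∀ (N : ℕ) (D : Stack N n), IsPolygon r D → ∀ Y : Dia,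
      (n : ℝ) * ((univ.filter fun h : Equiv.Perm (Fin n) =>
        ¬ Separated 2 (stackDia D h) Y).card : ℝ) ^ 4 ≤ C * (n.factorial : ℝ) ^ 4 := by
  obtain ⟨C, hC, h⟩ := poly_main
  refine ⟨C, hC, fun n => ?_⟩
  obtain ⟨R, hR, h1⟩ := h n
  refine ⟨R, hR, fun r hr N D hD Y => le_trans ?_ (h1 r hr N D hD (moment 2 Y.D.fPoly))⟩
  have h2 := sep_le hf D Y
  gcongr

theorem root_le {a b c x : ℝ} (ha : 0 < a) (hb : 0 ≤ b) (hc : 0 ≤ c) (hx : 0 ≤ x)
    (h : a * x ^ 4 ≤ b * c ^ 4) : a ^ (1 / 4 : ℝ) * x ≤ b ^ (1 / 4 : ℝ) * c := by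
  have h1 : (a ^ (1 / 4 : ℝ) * x) ^ 4 ≤ (b ^ (1 / 4 : ℝ) * c) ^ 4 := by
    rw [mul_pow, mul_pow, ← Real.rpow_natCast (a ^ (1 / 4 : ℝ)), ← Real.rpow_mul ha.le,
      ← Real.rpow_natCast (b ^ (1 / 4 : ℝ)), ← Real.rpow_mul hb]
    norm_num
    exact h
  exact (pow_le_pow_iff_left₀ (by positivity) (by positivity) (by norm_num)).1 h1

open Classical in
/-- random arc presentations: both the polygon and the heights are random -/
theorem arc_sep (hf : S_fpoly) : ∃ C : ℝ, 0 < C ∧ ∀ (n : ℕ) (N : Equiv.Perm (Fin n) → ℕ)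
    (D : ∀ r : Equiv.Perm (Fin n), Stack (N r) n), (∀ r, IsPolygon r (D r)) → ∀ Y : Dia,
      (n : ℝ) ^ (1 / 4 : ℝ) * ((univ.filter fun x : Equiv.Perm (Fin n) × Equiv.Perm (Fin n) =>
        ¬ Separated 2 (stackDia (D x.1) x.2) Y).card : ℝ) ≤ C * (n.factorial : ℝ) ^ 2 := by
  obtain ⟨C, hC, h⟩ := poly_sep hf
  refine ⟨C + C ^ (1 / 4 : ℝ), by positivity, fun n N D hD Y => ?_⟩
  rcases Nat.eq_zero_or_pos n with rfl | hn
  · rw [Nat.cast_zero, Real.zero_rpow (by norm_num), zero_mul]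
    positivity
  have hn1 : (1 : ℝ) ≤ n := by exact_mod_cast hn
  obtain ⟨R, hR, h1⟩ := h n
  set f : ℝ := (n.factorial : ℝ) with hf'
  have hf0 : 0 < f := by rw [hf']; exact_mod_cast Nat.factorial_pos n
  set q : ℝ := (n : ℝ) ^ (1 / 4 : ℝ) with hq
  have hq0 : 0 < q := by rw [hq]; positivity
  have hqn : q ≤ n := by
    rw [hq]
    calc (n : ℝ) ^ (1 / 4 : ℝ) ≤ (n : ℝ) ^ (1 : ℝ) :=
          Real.rpow_le_rpow_of_exponent_le hn1 (by norm_num)
      _ = n := Real.rpow_one _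
  set b : Equiv.Perm (Fin n) → ℕ := fun r =>
    (univ.filter fun h : Equiv.Perm (Fin n) => ¬ Separated 2 (stackDia (D r) h) Y).card with hb
  have hbf : ∀ r, (b r : ℝ) ≤ f := by
    intro r
    have : b r ≤ n.factorial := by
      refine (card_le_univ _).trans ?_
      rw [Fintype.card_perm, Fintype.card_fin]
    rw [hf']
    exact_mod_cast this
  have hcount : ((univ.filter fun x : Equiv.Perm (Fin n) × Equiv.Perm (Fin n) =>
        ¬ Separated 2 (stackDia (D x.1) x.2) Y).card : ℝ) = ∑ r, (b r : ℝ) := by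
    have : (univ.filter fun x : Equiv.Perm (Fin n) × Equiv.Perm (Fin n) =>
        ¬ Separated 2 (stackDia (D x.1) x.2) Y).card = ∑ r, b r := by
      rw [card_filter, Fintype.sum_prod_type]
      refine sum_congr rfl fun r _ => ?_
      rw [hb]
      simp only
      rw [card_filter]
    rw [this]
    push_cast
    rfl
  rw [hcount, ← sum_filter_add_sum_filter_not univ (fun r => r ∈ R), mul_add]
  have e1 : q * ∑ r ∈ univ.filter (fun r => r ∈ R), (b r : ℝ) ≤ C * f ^ 2 := by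
    have e2 : ∑ r ∈ univ.filter (fun r => r ∈ R), (b r : ℝ) ≤ (R.card : ℝ) * f := by
      calc _ ≤ ∑ _r ∈ univ.filter (fun r => r ∈ R), f := sum_le_sum fun r _ => hbf r
        _ = _ := by
          rw [sum_const, nsmul_eq_mul]
          congr 3
          ext r; simp
    calc q * ∑ r ∈ univ.filter (fun r => r ∈ R), (b r : ℝ) ≤ q * ((R.card : ℝ) * f) := by gcongr
      _ ≤ n * ((R.card : ℝ) * f) := by gcongr
      _ = (n * (R.card : ℝ)) * f := by ring
      _ ≤ (C * f) * f := by gcongr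
      _ = _ := by ring
  have e3 : q * ∑ r ∈ univ.filter (fun r => ¬ r ∈ R), (b r : ℝ) ≤ C ^ (1 / 4 : ℝ) * f ^ 2 := by
    rw [mul_sum]
    calc ∑ r ∈ univ.filter (fun r => ¬ r ∈ R), q * (b r : ℝ) ≤
          ∑ _r ∈ univ.filter (fun r : Equiv.Perm (Fin n) => ¬ r ∈ R), C ^ (1 / 4 : ℝ) * f := by
          refine sum_le_sum fun r hr => ?_
          exact root_le (by linarith) hC.le hf0.le (by positivity)
            (h1 r (mem_filter.1 hr).2 (N r) (D r) (hD r) Y)
      _ = ((univ.filter (fun r : Equiv.Perm (Fin n) => ¬ r ∈ R)).card : ℝ) *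
          (C ^ (1 / 4 : ℝ) * f) := by
          rw [sum_const, nsmul_eq_mul]
      _ ≤ f * (C ^ (1 / 4 : ℝ) * f) := by
          gcongr
          rw [hf']
          have : (univ.filter (fun r : Equiv.Perm (Fin n) => ¬ r ∈ R)).card ≤ n.factorial := by
            refine (card_le_univ _).trans ?_
            rw [Fintype.card_perm, Fintype.card_fin]
          exact_mod_cast this
      _ = _ := by ring
  calc _ ≤ C * f ^ 2 + C ^ (1 / 4 : ℝ) * f ^ 2 := add_le_add e1 e3
    _ = _ := by ring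

open Classical in
/-- `M` independent random arc presentations -/
theorem arc_tuples (hf : S_fpoly) : ∃ C : ℝ, 0 < C ∧ ∀ (M n : ℕ) (N : Equiv.Perm (Fin n) → ℕ)
    (D : ∀ r : Equiv.Perm (Fin n), Stack (N r) n), (∀ r, IsPolygon r (D r)) →
      (n : ℝ) ^ (1 / 4 : ℝ) *
        ((univ.filter fun W : Fin M → Equiv.Perm (Fin n) × Equiv.Perm (Fin n) =>
        ∃ i j, i ≠ j ∧ ¬ Separated 2 (stackDia (D (W i).1) (W i).2)
          (stackDia (D (W j).1) (W j).2)).card : ℝ) ≤
            C * (M : ℝ) ^ 2 * (n.factorial : ℝ) ^ (2 * M) := by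
  obtain ⟨C, hC, h⟩ := arc_sep hf
  refine ⟨C, hC, fun M n N D hD => ?_⟩
  rcases Nat.eq_zero_or_pos n with rfl | hn
  · rw [Nat.cast_zero, Real.zero_rpow (by norm_num), zero_mul]
    positivity
  have hq0 : (0 : ℝ) < (n : ℝ) ^ (1 / 4 : ℝ) := by positivity
  have hcard : (Fintype.card (Equiv.Perm (Fin n) × Equiv.Perm (Fin n)) : ℝ) =
      (n.factorial : ℝ) ^ 2 := by
    rw [Fintype.card_prod, Fintype.card_perm, Fintype.card_fin]
    push_cast
    ring
  have h1 := Pool.Agent.W705.JR.tuples (α := Equiv.Perm (Fin n) × Equiv.Perm (Fin n)) M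
    (fun _ _ x y => ¬ Separated 2 (stackDia (D x.1) x.2) (stackDia (D y.1) y.2))
    (C / (n : ℝ) ^ (1 / 4 : ℝ)) (by positivity) (by
      intro i j _ y
      rw [hcard, div_mul_eq_mul_div, le_div_iff₀ hq0, mul_comm]
      refine le_trans (mul_le_mul_of_nonneg_left ?_ hq0.le) (h n N D hD (stackDia (D y.1) y.2))
      exact Pool.Agent.W705.JR.cardle _ _ _ _ id injective_id fun x hx => hx)
  rw [hcard] at h1
  calc _ ≤ (n : ℝ) ^ (1 / 4 : ℝ) * ((M : ℝ) ^ 2 * (C / (n : ℝ) ^ (1 / 4 : ℝ)) *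
        ((n.factorial : ℝ) ^ 2) ^ M) := by
          refine mul_le_mul_of_nonneg_left ?_ hq0.le
          exact (Pool.Agent.W705.JR.cardle _ _ _ _ id injective_id fun x hx => hx).trans h1
    _ = _ := by
      rw [← pow_mul]
      field_simp

open Classical in
/-- `M` independent random choices of the crossings of given shadows -/
theorem fixed_tuples (hf : S_fpoly) (M m N : ℕ) (G : Fin M → GaussWord N)
    (e : Fin M → Fin N → Bool)
    (hG : ∀ i, ∃ u v : Fin m → Fin N, IsMatching (G i) u v) :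
    (m : ℝ) ^ (1 / 4 : ℝ) * ((univ.filter fun W : Fin M → Fin N → Bool =>
        ∃ i j, i ≠ j ∧ ¬ Separated 2 (dia (G i) (e i) (W i)) (dia (G j) (e j) (W j))).card : ℝ) ≤
          (32 : ℝ) ^ (1 / 4 : ℝ) * (M : ℝ) ^ 2 * (2 : ℝ) ^ (N * M) := by
  rcases Nat.eq_zero_or_pos m with rfl | hm
  · rw [Nat.cast_zero, Real.zero_rpow (by norm_num), zero_mul]
    positivity
  have hm0 : (0 : ℝ) < m := by exact_mod_cast hm
  have hq0 : (0 : ℝ) < (m : ℝ) ^ (1 / 4 : ℝ) := by positivity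
  have hcard : (Fintype.card (Fin N → Bool) : ℝ) = (2 : ℝ) ^ N := by
    rw [Fintype.card_fun, Fintype.card_bool, Fintype.card_fin]
    push_cast
    rfl
  have h1 := Pool.Agent.W705.JR.tuples (α := Fin N → Bool) M
    (fun i j x y => ¬ Separated 2 (dia (G i) (e i) x) (dia (G j) (e j) y))
    ((32 : ℝ) ^ (1 / 4 : ℝ) / (m : ℝ) ^ (1 / 4 : ℝ)) (by positivity) (by
      intro i j _ y
      rw [hcard, div_mul_eq_mul_div, le_div_iff₀ hq0, mul_comm]
      obtain ⟨u, v, huv⟩ := hG i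
      have h2 := (fixed_sep hf N (G i) (e i) (dia (G j) (e j) y)).1 m u v huv
      exact root_le hm0 (by norm_num) (by positivity) (by positivity) (by
        have h3 : (m : ℝ) * ((univ.filter fun w : Fin N → Bool =>
          ¬ Separated 2 (dia (G i) (e i) w) (dia (G j) (e j) y)).card : ℝ) ^ 4 ≤
          32 * ((2 : ℝ) ^ N) ^ 4 := by exact_mod_cast h2
        refine le_trans (mul_le_mul_of_nonneg_left ?_ hm0.le) h3
        refine pow_le_pow_left₀ (by positivity) ?_ 4
        exact Pool.Agent.W705.JR.cardle _ _ _ _ id injective_id fun x hx => hx))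
  rw [hcard] at h1
  calc _ ≤ (m : ℝ) ^ (1 / 4 : ℝ) * ((M : ℝ) ^ 2 * ((32 : ℝ) ^ (1 / 4 : ℝ) /
        (m : ℝ) ^ (1 / 4 : ℝ)) * ((2 : ℝ) ^ N) ^ M) := by
          refine mul_le_mul_of_nonneg_left ?_ hq0.le
          exact (Pool.Agent.W705.JR.cardle _ _ _ _ id injective_id fun x hx => hx).trans h1
    _ = _ := by
      rw [← pow_mul]
      field_simp

open Classical in
/-- `M` independent random stackings of given curves -/
theorem stack_tuples (hf : S_fpoly) : ∃ C : ℝ, 0 < C ∧ ∀ (M n L : ℕ) (N : Fin M → ℕ)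
    (D : ∀ i, Stack (N i) n), (∀ i, L ≤ N i) →
      (L : ℝ) ^ (3 / 4 : ℝ) * ((univ.filter fun W : Fin M → Equiv.Perm (Fin n) =>
        ∃ i j, i ≠ j ∧ ¬ Separated 2 (stackDia (D i) (W i)) (stackDia (D j) (W j))).card : ℝ) ≤
          C * (M : ℝ) ^ 2 * (n : ℝ) ^ (5 / 4 : ℝ) * (n.factorial : ℝ) ^ M := by
  obtain ⟨C, hC, h⟩ := stack_sep hf
  refine ⟨C ^ (1 / 4 : ℝ), by positivity, fun M n L N D hL => ?_⟩
  rcases Nat.eq_zero_or_pos L with rfl | hL0
  · rw [Nat.cast_zero, Real.zero_rpow (by norm_num), zero_mul]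
    positivity
  have hLr : (0 : ℝ) < L := by exact_mod_cast hL0
  have hq0 : (0 : ℝ) < (L : ℝ) ^ (3 / 4 : ℝ) := by positivity
  have hcard : (Fintype.card (Equiv.Perm (Fin n)) : ℝ) = (n.factorial : ℝ) := by
    rw [Fintype.card_perm, Fintype.card_fin]
  have h1 := Pool.Agent.W705.JR.tuples (α := Equiv.Perm (Fin n)) M
    (fun i j x y => ¬ Separated 2 (stackDia (D i) x) (stackDia (D j) y))
    (C ^ (1 / 4 : ℝ) * (n : ℝ) ^ (5 / 4 : ℝ) / (L : ℝ) ^ (3 / 4 : ℝ)) (by positivity) (by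
      intro i j _ y
      rw [hcard, div_mul_eq_mul_div, le_div_iff₀ hq0, mul_comm]
      have h2 := h (N i) n (D i) (stackDia (D j) y)
      have h3 : (L : ℝ) ^ 3 * ((univ.filter fun x : Equiv.Perm (Fin n) =>
          ¬ Separated 2 (stackDia (D i) x) (stackDia (D j) y)).card : ℝ) ^ 4 ≤
          (C * (n : ℝ) ^ 5) * (n.factorial : ℝ) ^ 4 := by
        refine le_trans ?_ h2
        have : (L : ℝ) ≤ N i := by exact_mod_cast hL i
        gcongr
      have h4 := root_le (by positivity) (by positivity) (by positivity) (by positivity) h3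
      have e1 : ((L : ℝ) ^ 3) ^ (1 / 4 : ℝ) = (L : ℝ) ^ (3 / 4 : ℝ) := by
        rw [← Real.rpow_natCast, ← Real.rpow_mul hLr.le]; norm_num
      have e2 : (C * (n : ℝ) ^ 5) ^ (1 / 4 : ℝ) = C ^ (1 / 4 : ℝ) * (n : ℝ) ^ (5 / 4 : ℝ) := by
        rw [Real.mul_rpow hC.le (by positivity), ← Real.rpow_natCast (n : ℝ) 5,
          ← Real.rpow_mul (by positivity)]
        norm_num
      rw [e1, e2] at h4
      refine le_trans (mul_le_mul_of_nonneg_left ?_ hq0.le) h4
      exact Pool.Agent.W705.JR.cardle _ _ _ _ id injective_id fun x hx => hx)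
  rw [hcard] at h1
  calc _ ≤ (L : ℝ) ^ (3 / 4 : ℝ) * ((M : ℝ) ^ 2 * (C ^ (1 / 4 : ℝ) * (n : ℝ) ^ (5 / 4 : ℝ) /
        (L : ℝ) ^ (3 / 4 : ℝ)) * (n.factorial : ℝ) ^ M) := by
          refine mul_le_mul_of_nonneg_left ?_ hq0.le
          exact (Pool.Agent.W705.JR.cardle _ _ _ _ id injective_id fun x hx => hx).trans h1
    _ = _ := by
      field_simp

end Pool.Agent.W642.RV
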